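import Pool.Agent.N111.FT.Homs

/-!
Images of varieties which dominate a variety with a system of circuits are fibred over varieties of
general type.
-/

set_option autoImplicit false
set_option linter.overlappingInstances false
set_option linter.unusedSectionVars false

open FF IntermediateField Pool.Agent.W603.LV

namespace Pool.Agent.N111.FT

open Pool.Agent.TH466.QG
open Pool.Agent.W602.GT (GeneralType tn)

section galois

variable {k M F K K₀ : Type} [Field k] [CharZero k] [IsAlgClosed k] [Field M] [Field F] [Field K]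
  [Field K₀] [Algebra k M] [Algebra k F] [Algebra k K] [Algebra k K₀] [Algebra F K] [Algebra F M]
  [Algebra K M] [Algebra K₀ K] [IsScalarTower k F K] [IsScalarTower k F M] [IsScalarTower k K M]
  [IsScalarTower F K M] [IsScalarTower k K₀ K]

variable (k M F K K₀)

/-- the embedding of `K₀` into `M` -/
def emb : K₀ →ₐ[k] M := (IsScalarTower.toAlgHom k K M).comp (IsScalarTower.toAlgHom k K₀ K)

/-- its conjugates -/
def cemb (g : fixg k M F) : K₀ →ₐ[k] M := ((g : M ≃ₐ[k] M) : M →ₐ[k] M).comp (emb k M K K₀)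

/-- the union of the images -/
def cset : Set M := ⋃ g : fixg k M F, Set.range (cemb k M F K K₀ g)

/-- the relative algebraic closure of the field generated by the conjugates of `K₀` -/
def EE : IntermediateField k M := aclo k (cset k M F K K₀)

variable {k M F K K₀}

theorem cemb_apply (g : fixg k M F) (z : K₀) :
    cemb k M F K K₀ g z = (g : M ≃ₐ[k] M) (algebraMap K M (algebraMap K₀ K z)) := rfl

theorem cemb_mem (g : fixg k M F) (z : K₀) : cemb k M F K K₀ g z ∈ EE k M F K K₀ :=
  subset_aclo _ (Set.mem_iUnion.2 ⟨g, z, rfl⟩)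

theorem stab (g : fixg k M F) {x : M} (hx : x ∈ EE k M F K K₀) :
    (g : M ≃ₐ[k] M) x ∈ EE k M F K K₀ := by
  have h1 := (map_mem_aclo_iff ((g : M ≃ₐ[k] M) : M →ₐ[k] M) (cset k M F K K₀) x).2 hx
  refine aclo_mono ?_ h1
  rintro _ ⟨y, hy, rfl⟩
  obtain ⟨h, z, rfl⟩ := Set.mem_iUnion.1 hy
  exact Set.mem_iUnion.2 ⟨g * h, z, rfl⟩

variable (k M F K K₀)

/-- the restriction of an automorphism, as a homomorphism -/
def resH (g : fixg k M F) : EE k M F K K₀ →ₐ[k] EE k M F K K₀ :=
  (((g : M ≃ₐ[k] M) : M →ₐ[k] M).comp (EE k M F K K₀).val).codRestrict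
    (EE k M F K K₀).toSubalgebra (fun x => stab g x.2)

theorem resH_apply (g : fixg k M F) (x : EE k M F K K₀) :
    (resH k M F K K₀ g x : M) = (g : M ≃ₐ[k] M) x := rfl

/-- the restriction of an automorphism -/
def res (g : fixg k M F) : EE k M F K K₀ ≃ₐ[k] EE k M F K K₀ :=
  AlgEquiv.ofAlgHom (resH k M F K K₀ g) (resH k M F K K₀ g⁻¹)
    (by
      ext x
      change (g * g⁻¹ : fixg k M F).1 (x : M) = x
      rw [mul_inv_cancel]
      rfl)
    (by
      ext x
      change (g⁻¹ * g : fixg k M F).1 (x : M) = x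
      rw [inv_mul_cancel]
      rfl)

theorem res_apply (g : fixg k M F) (x : EE k M F K K₀) :
    (res k M F K K₀ g x : M) = (g : M ≃ₐ[k] M) x := rfl

/-- the restriction homomorphism -/
def rho : fixg k M F →* (EE k M F K K₀ ≃ₐ[k] EE k M F K K₀) where
  toFun := res k M F K K₀
  map_one' := by
    ext x
    rfl
  map_mul' g h := by
    ext x
    rfl

/-- the group of the restrictions -/
def GE : Subgroup (EE k M F K K₀ ≃ₐ[k] EE k M F K K₀) := (rho k M F K K₀).range

/-- the map onto this group -/
def rhoR : fixg k M F →* GE k M F K K₀ := (rho k M F K K₀).rangeRestrict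

theorem rhoR_surj : Function.Surjective (rhoR k M F K K₀) :=
  (rho k M F K K₀).rangeRestrict_surjective

theorem rhoR_apply (g : fixg k M F) (x : EE k M F K K₀) :
    (((rhoR k M F K K₀ g : EE k M F K K₀ ≃ₐ[k] EE k M F K K₀) x : EE k M F K K₀) : M) =
      (g : M ≃ₐ[k] M) x := rfl

theorem GE_finite [FiniteDimensional F M] : Finite (GE k M F K K₀) := by
  have : Finite (fixg k M F) := fixg_finite
  exact Finite.of_surjective _ (rhoR_surj k M F K K₀)

/-- the base field of the fibration -/
def L0 : IntermediateField k F := (EE k M F K K₀).comap (IsScalarTower.toAlgHom k F M)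

variable {k M F K K₀}

theorem mem_L0 {x : F} : x ∈ L0 k M F K K₀ ↔ algebraMap F M x ∈ EE k M F K K₀ := Iff.rfl

theorem L0_closed {x : F} (h : IsAlgebraic (L0 k M F K K₀) x) : x ∈ L0 k M F K K₀ := by
  rw [mem_L0]
  apply aclo_closed
  let f : L0 k M F K K₀ →+* EE k M F K K₀ :=
    { toFun := fun y => ⟨algebraMap F M y, y.2⟩
      map_one' := Subtype.ext (map_one _)
      map_mul' := fun a b => Subtype.ext (map_mul _ _ _)
      map_zero' := Subtype.ext (map_zero _)
      map_add' := fun a b => Subtype.ext (map_add _ _ _) }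
  exact h.ringHom_of_comp_eq f (algebraMap F M) f.injective rfl

/-- the fixed field -/
theorem exists_fixed_equiv [FiniteDimensional F M] [IsGalois F M] :
    Nonempty (fixedField (GE k M F K K₀) ≃ₐ[k] L0 k M F K K₀) := by
  let f : L0 k M F K K₀ →ₐ[k] fixedField (GE k M F K K₀) :=
    { toFun := fun y => ⟨⟨algebraMap F M y, y.2⟩, by
        rintro ⟨g, hg⟩
        obtain ⟨g', rfl⟩ := hg
        apply Subtype.ext
        exact g'.2 y⟩
      map_one' := Subtype.ext (Subtype.ext (map_one _))
      map_mul' := fun a b => Subtype.ext (Subtype.ext (map_mul _ _ _))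
      map_zero' := Subtype.ext (Subtype.ext (map_zero _))
      map_add' := fun a b => Subtype.ext (Subtype.ext (map_add _ _ _))
      commutes' := fun c => Subtype.ext (Subtype.ext
        (IsScalarTower.algebraMap_apply k F M c).symm) }
  refine ⟨(AlgEquiv.ofBijective f ⟨f.injective, fun x => ?_⟩).symm⟩
  have h1 : ((x : EE k M F K K₀) : M) ∈ Set.range (algebraMap F M) := by
    rw [IsGalois.mem_range_algebraMap_iff_fixed]
    intro g
    let g' : fixg k M F := ⟨g.restrictScalars k, fun y => g.commutes y⟩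
    have h2 := x.2 ⟨rho k M F K K₀ g', ⟨g', rfl⟩⟩
    exact congrArg Subtype.val h2
  obtain ⟨y, hy⟩ := h1
  refine ⟨⟨y, ?_⟩, ?_⟩
  · rw [mem_L0, hy]
    exact (x : EE k M F K K₀).2
  · exact Subtype.ext (Subtype.ext hy)

/-- the elements of `K₀` are algebraic over the base field -/
theorem alg_L0 [FiniteDimensional F M] [IsGalois F M] {x : M} (hx : x ∈ EE k M F K K₀) :
    IsAlgebraic ((L0 k M F K K₀).map (IsScalarTower.toAlgHom k F M)) x := by
  have hfin : Finite (GE k M F K K₀) := GE_finite k M F K K₀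
  have h1 : FiniteDimensional (fixedField (GE k M F K K₀)) (EE k M F K K₀) :=
    Pool.Agent.W619.PQ.fixed_finite _
  have h2 : IsAlgebraic (fixedField (GE k M F K K₀)) (⟨x, hx⟩ : EE k M F K K₀) :=
    Algebra.IsAlgebraic.isAlgebraic _
  let f : fixedField (GE k M F K K₀) →+* (L0 k M F K K₀).map (IsScalarTower.toAlgHom k F M) :=
    { toFun := fun y => ⟨((y : EE k M F K K₀) : M), by
        have h1 : ((y : EE k M F K K₀) : M) ∈ Set.range (algebraMap F M) := by
          rw [IsGalois.mem_range_algebraMap_iff_fixed]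
          intro g
          let g' : fixg k M F := ⟨g.restrictScalars k, fun y => g.commutes y⟩
          have h2 := y.2 ⟨rho k M F K K₀ g', ⟨g', rfl⟩⟩
          exact congrArg Subtype.val h2
        obtain ⟨z, hz⟩ := h1
        refine ⟨z, ?_, hz⟩
        change algebraMap F M z ∈ EE k M F K K₀
        rw [hz]
        exact (y : EE k M F K K₀).2⟩
      map_one' := rfl
      map_mul' := fun a b => rfl
      map_zero' := rfl
      map_add' := fun a b => rfl }
  exact h2.ringHom_of_comp_eq f (EE k M F K K₀).val f.injective rfl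

end galois

/-- the transcendence degree of an algebraic extension -/
theorem trdeg_alg {k E K : Type} [Field k] [Field E] [Field K] [Algebra k E] [Algebra k K]
    [Algebra E K] [IsScalarTower k E K] [Algebra.IsAlgebraic E K] :
    Algebra.trdeg k K = Algebra.trdeg k E := by
  rw [← trdeg_add_eq k E (A := K)]
  have h1 : Algebra.trdeg E K = 0 := by
    rw [trdeg_eq_zero_iff]
    infer_instance
  rw [h1, add_zero]

/-- the transcendence degree of a field which is algebraic over several images of `K₀` -/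
theorem trdeg_le_homs {k E K₀ : Type} [Field k] [Field E] [Field K₀] [Algebra k E] [Algebra k K₀]
    {J : Type} [Finite J] (φ : J → K₀ →ₐ[k] E) (halg : ∀ x : E, x ∈ aclo k (⋃ j, Set.range (φ j)))
    {w : ℕ} {t : Fin w → K₀} (ht : ∀ z : K₀, z ∈ aclo k (Set.range t)) :
    Algebra.trdeg k E ≤ (Nat.card J * w : ℕ) := by
  let T : Set E := Set.range fun p : J × Fin w => φ p.1 (t p.2)
  have hTall : ∀ x : E, x ∈ aclo k T := by
    intro x
    refine aclo_le ?_ (halg x)
    rintro _ hx
    rw [Set.mem_iUnion] at hx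
    obtain ⟨j, z, rfl⟩ := hx
    have h1 := (map_mem_aclo_iff (φ j) (Set.range t) z).2 (ht z)
    refine aclo_mono ?_ h1
    rintro _ ⟨_, ⟨i, rfl⟩, rfl⟩
    exact ⟨(j, i), rfl⟩
  have hTalg : Algebra.IsAlgebraic (adjoin k T) E := ⟨fun x => mem_aclo.1 (hTall x)⟩
  have hTalg' := Pool.Agent.W602.GT.alg_adjoin hTalg
  have h1 := Algebra.IsAlgebraic.trdeg_le_cardinalMk k (A := E) (s := T)
  refine h1.trans ?_
  have h2 : Cardinal.mk T ≤ Cardinal.mk (J × Fin w) := Cardinal.mk_range_le
  refine h2.trans (le_of_eq ?_)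
  have h3 : Finite (J × Fin w) := inferInstance
  rw [← Nat.cast_card, Nat.card_prod, Nat.card_eq_fintype_card (α := Fin w), Fintype.card_fin]

section main

variable {k M F K K₀ : Type} [Field k] [CharZero k] [IsAlgClosed k] [Field M] [Field F] [Field K]
  [Field K₀] [Algebra k M] [Algebra k F] [Algebra k K] [Algebra k K₀] [Algebra F K] [Algebra F M]
  [Algebra K M] [Algebra K₀ K] [IsScalarTower k F K] [IsScalarTower k F M] [IsScalarTower k K M]
  [IsScalarTower F K M] [IsScalarTower k K₀ K]

/-- **The fibration theorem**, when a Galois closure is given. -/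
theorem fib_galois [FiniteDimensional F M] [IsGalois F M] [FiniteDimensional F K]
    {s N w r m : ℕ} (hC : HasCirc k s N w K₀) (hw : 1 ≤ w) (hr : Module.finrank F K ≤ r)
    (hm : Algebra.trdeg k F = m) (hN : r * (min m (r * w) * ((s + 4) * tn (s - 1))) ≤ N) :
    ∃ (L₀ : IntermediateField k F) (n : ℕ), w ≤ n ∧ n ≤ m ∧ n ≤ r * w ∧ GeneralType k L₀ n ∧
      (∀ x : F, IsAlgebraic L₀ x → x ∈ L₀) ∧
      ∀ z : K₀, IsAlgebraic (L₀.map (IsScalarTower.toAlgHom k F K)) (algebraMap K₀ K z) := by
  classical
  have hfin : Finite (fixg k M F) := fixg_finite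
  have hfinE : Finite (GE k M F K K₀) := GE_finite k M F K K₀
  have hHr : (fixK k M F K).index ≤ r := index_le.trans hr
  -- the embeddings
  let J : Type := fixg k M F ⧸ fixK k M F K
  let φ : J → K₀ →ₐ[k] EE k M F K K₀ := fun q =>
    (cemb k M F K K₀ q.out).codRestrict (EE k M F K K₀).toSubalgebra (fun z => cemb_mem q.out z)
  have hφ : ∀ q z, ((φ q z : EE k M F K K₀) : M) = cemb k M F K K₀ q.out z := fun q z => rfl
  let H : J → Subgroup (GE k M F K K₀) := fun q =>
    ((fixK k M F K).map (MulAut.conj q.out).toMonoidHom).map (rhoR k M F K K₀)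
  have hfix : ∀ q, ∀ h ∈ H q, ∀ z, (h : EE k M F K K₀ ≃ₐ[k] EE k M F K K₀) (φ q z) = φ q z := by
    rintro q _ ⟨_, ⟨h, hh, rfl⟩, rfl⟩ z
    apply Subtype.ext
    rw [rhoR_apply, hφ, cemb_apply]
    have h1 : (h : M ≃ₐ[k] M) (algebraMap K M (algebraMap K₀ K z)) =
        algebraMap K M (algebraMap K₀ K z) := hh _
    have h2 : (MulAut.conj q.out).toMonoidHom h * q.out = q.out * h := by
      change (q.out * h * q.out⁻¹) * q.out = _
      group
    have h3 := congrArg (fun g : fixg k M F =>
      (g : M ≃ₐ[k] M) (algebraMap K M (algebraMap K₀ K z))) h2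
    change (((MulAut.conj q.out).toMonoidHom h : fixg k M F) : M ≃ₐ[k] M)
      ((q.out : M ≃ₐ[k] M) (algebraMap K M (algebraMap K₀ K z))) =
      (q.out : M ≃ₐ[k] M) ((h : M ≃ₐ[k] M) (algebraMap K M (algebraMap K₀ K z))) at h3
    rw [h1] at h3
    exact h3
  have hidx : ∀ q, (H q).index ≤ r := by
    intro q
    have h1 := Subgroup.index_map_dvd
      ((fixK k M F K).map (MulAut.conj q.out).toMonoidHom) (rhoR_surj k M F K K₀)
    have h2 : ((fixK k M F K).map (MulAut.conj q.out).toMonoidHom).index =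
        (fixK k M F K).index := Subgroup.index_map_equiv _ (MulAut.conj q.out)
    rw [h2] at h1
    refine (Nat.le_of_dvd ?_ h1).trans hHr
    exact Nat.pos_of_ne_zero Subgroup.index_ne_zero_of_finite
  have hsub : cset k M F K K₀ ⊆
      (EE k M F K K₀).val '' (⋃ q : J, Set.range (φ q)) := by
    rintro _ hx
    obtain ⟨g, z, rfl⟩ := Set.mem_iUnion.1 hx
    refine ⟨φ (g : J) z, Set.mem_iUnion.2 ⟨g, z, rfl⟩, ?_⟩
    change cemb k M F K K₀ (g : J).out z = _
    obtain ⟨h, hh⟩ := QuotientGroup.mk_out_eq_mul (fixK k M F K) g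
    rw [cemb_apply, cemb_apply, hh]
    change (g : M ≃ₐ[k] M) (((h : fixg k M F) : M ≃ₐ[k] M) _) = _
    exact congrArg (g : M ≃ₐ[k] M) (h.2 (algebraMap K₀ K z))
  have halg : ∀ x : EE k M F K K₀, x ∈ aclo k (⋃ q, Set.range (φ q)) := by
    intro x
    rw [← map_mem_aclo_iff (EE k M F K K₀).val]
    exact aclo_mono hsub x.2
  -- the transcendence degrees
  have hK₀ : Algebra.trdeg k K₀ = w := by
    obtain ⟨m', d, U, c, a, b, -, -, -, -, -, -, hbas⟩ := hC
    rw [← hbas.cardinalMk_eq_trdeg]
    simp
  have hMtr : Algebra.trdeg k M = m := by rw [trdeg_alg (E := F) (K := M), hm]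
  have hEle : Algebra.trdeg k (EE k M F K K₀) ≤ m := by
    rw [← hMtr]
    exact trdeg_le_of_injective (EE k M F K K₀).val (EE k M F K K₀).val.injective
  obtain ⟨n, hnm, hn⟩ := Cardinal.exists_nat_eq_of_le_nat hEle
  have hwn : w ≤ n := by
    have h1 := trdeg_le_of_injective (cemb k M F K K₀ 1 |>.codRestrict
      (EE k M F K K₀).toSubalgebra (fun z => cemb_mem 1 z)) (RingHom.injective _)
    have h2 : Algebra.trdeg k (EE k M F K K₀).toSubalgebra = Algebra.trdeg k (EE k M F K K₀) := rfl
    rw [hK₀, h2, hn] at h1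
    exact_mod_cast h1
  have hnr : n ≤ r * w := by
    obtain ⟨m', d, U, c, a, b, -, -, -, -, -, -, hbas⟩ := hC
    have h1 := trdeg_le_homs φ halg
      (t := fun i => (c i (a i) • U i (a i) ^ d i) / (c i (b i) • U i (b i) ^ d i)) (fun z =>
        mem_aclo.2 (hbas.isAlgebraic_field.isAlgebraic z))
    rw [hn] at h1
    have h2 : n ≤ Nat.card J * w := by exact_mod_cast h1
    exact h2.trans (Nat.mul_le_mul_right _ hHr)
  have hgen : GeneralType k (fixedField (GE k M F K K₀)) n := by
    refine general_of_homs φ H hfix hidx halg hC hn (hw.trans hwn) (le_trans ?_ hN)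
    exact Nat.mul_le_mul_left _ (Nat.mul_le_mul_right _ (le_min hnm hnr))
  obtain ⟨e⟩ := exists_fixed_equiv (k := k) (M := M) (F := F) (K := K) (K₀ := K₀)
  refine ⟨L0 k M F K K₀, n, hwn, hnm, hnr, general_of_equiv e hgen, fun x hx => L0_closed hx, ?_⟩
  intro z
  have h1 : IsAlgebraic ((L0 k M F K K₀).map (IsScalarTower.toAlgHom k F M))
      (algebraMap K M (algebraMap K₀ K z)) := by
    refine alg_L0 ?_
    exact cemb_mem (1 : fixg k M F) z
  have h2 : ((L0 k M F K K₀).map (IsScalarTower.toAlgHom k F K)).map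
      (IsScalarTower.toAlgHom k K M) = (L0 k M F K K₀).map (IsScalarTower.toAlgHom k F M) := by
    rw [IntermediateField.map_map]
    congr 1
    ext x
    exact (IsScalarTower.algebraMap_apply F K M x).symm
  rw [← h2] at h1
  exact (isAlgebraic_ringHom_iff_of_comp_eq
    (equivMap ((L0 k M F K K₀).map (IsScalarTower.toAlgHom k F K)) (IsScalarTower.toAlgHom k K M))
    (IsScalarTower.toAlgHom k K M) (IsScalarTower.toAlgHom k K M).injective rfl).1 h1

end main

/-- **The fibration theorem.** -/
theorem fibration {k F K K₀ : Type} [Field k] [CharZero k] [IsAlgClosed k] [Field F] [Field K]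
    [Field K₀] [Algebra k F] [Algebra k K] [Algebra k K₀] [Algebra F K] [Algebra K₀ K]
    [IsScalarTower k F K] [IsScalarTower k K₀ K] [FiniteDimensional F K] {s N w r m : ℕ}
    (hC : HasCirc k s N w K₀) (hw : 1 ≤ w) (hr : Module.finrank F K ≤ r)
    (hm : Algebra.trdeg k F = m) (hN : r * (min m (r * w) * ((s + 4) * tn (s - 1))) ≤ N) :
    ∃ (L₀ : IntermediateField k F) (n : ℕ), w ≤ n ∧ n ≤ m ∧ n ≤ r * w ∧ GeneralType k L₀ n ∧
      (∀ x : F, IsAlgebraic L₀ x → x ∈ L₀) ∧
      ∀ z : K₀, IsAlgebraic (L₀.map (IsScalarTower.toAlgHom k F K)) (algebraMap K₀ K z) := by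
  have hF : CharZero F := charZero_of_injective_algebraMap (algebraMap k F).injective
  let L := AlgebraicClosure K
  have h1 : IsScalarTower F K L := inferInstance
  have h2 : IsScalarTower k K L := inferInstance
  have h3 : IsScalarTower k F L := IsScalarTower.of_algebraMap_eq fun x => by
    rw [IsScalarTower.algebraMap_apply k K L, IsScalarTower.algebraMap_apply F K L,
      IsScalarTower.algebraMap_apply k F K]
  have hLF : Algebra.IsAlgebraic F L := by
    have : Algebra.IsAlgebraic F K := inferInstance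
    have : Algebra.IsAlgebraic K L := inferInstance
    exact Algebra.IsAlgebraic.trans F K L
  have hLn : Normal F L := by
    have : IsAlgClosure F L := ⟨inferInstance, hLF⟩
    exact IsAlgClosure.normal F L
  let M := normalClosure F K L
  have hMn : Normal F M := inferInstance
  have hMf : FiniteDimensional F M := inferInstance
  have hMg : IsGalois F M := ⟨⟩
  have h4 : IsScalarTower k F M := inferInstance
  have h5 : IsScalarTower F K M := inferInstance
  have h6 : IsScalarTower k K M := IsScalarTower.of_algebraMap_eq fun x => by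
    rw [IsScalarTower.algebraMap_apply k F M, IsScalarTower.algebraMap_apply F K M,
      IsScalarTower.algebraMap_apply k F K]
  exact fib_galois (M := M) hC hw hr hm hN

end Pool.Agent.N111.FT
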