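import Pool.Agent.N111.FT.Gen

/-!
The fixed field of a finite group is of general type if the field is algebraic over the images of a
field with a system of circuits of high powers under several embeddings.
-/

set_option autoImplicit false
set_option linter.overlappingInstances false
set_option linter.unusedSectionVars false

open FF IntermediateField Pool.Agent.W603.LV

namespace Pool.Agent.N111.FT

open Pool.Agent.TH466.QG
open Pool.Agent.W602.GT (GeneralType tn)

section alg

variable {k A B : Type} [Field k] [Field A] [Field B] [Algebra k A] [Algebra k B]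

/-- images under homomorphisms of fields -/
theorem alg_map_iff (φ : A →ₐ[k] B) (S : Set A) (x : A) :
    IsAlgebraic (adjoin k (φ '' S)) (φ x) ↔ IsAlgebraic (adjoin k S) x := by
  rw [← IntermediateField.adjoin_map]
  exact isAlgebraic_ringHom_iff_of_comp_eq (equivMap (adjoin k S) φ) φ φ.injective rfl

/-- the field of the elements which are algebraic over the field generated by a set -/
def aclo (k : Type) [Field k] {A : Type} [Field A] [Algebra k A] (S : Set A) :
    IntermediateField k A := (algebraicClosure (adjoin k S) A).restrictScalars k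

theorem mem_aclo {S : Set A} {x : A} : x ∈ aclo k S ↔ IsAlgebraic (adjoin k S) x :=
  mem_algebraicClosure_iff

theorem subset_aclo (S : Set A) : S ⊆ aclo k S := fun x hx =>
  mem_aclo.2 (isAlgebraic_algebraMap (⟨x, subset_adjoin k S hx⟩ : adjoin k S))

/-- the field is algebraically closed -/
theorem aclo_closed {S : Set A} {x : A} (h : IsAlgebraic (aclo k S) x) : x ∈ aclo k S := by
  have h1 : IsAlgebraic (algebraicClosure (adjoin k S) A) x := h
  exact mem_aclo.2 (h1.restrictScalars (adjoin k S))

theorem aclo_le {S T : Set A} (h : S ⊆ aclo k T) : aclo k S ≤ aclo k T := by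
  intro x hx
  rw [mem_aclo] at hx
  have h1 : adjoin k S ≤ aclo k T := adjoin_le_iff.2 h
  apply aclo_closed
  let _ : Algebra (adjoin k S) (aclo k T) := (IntermediateField.inclusion h1).toRingHom.toAlgebra
  have : IsScalarTower (adjoin k S) (aclo k T) A := IsScalarTower.of_algebraMap_eq fun x => rfl
  exact hx.extendScalars (IntermediateField.inclusion h1).toRingHom.injective

theorem aclo_mono {S T : Set A} (h : S ⊆ T) : aclo k S ≤ aclo k T :=
  aclo_le fun _ hx => subset_aclo T (h hx)

theorem map_mem_aclo_iff (φ : A →ₐ[k] B) (S : Set A) (x : A) :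
    φ x ∈ aclo k (φ '' S) ↔ x ∈ aclo k S := by
  rw [mem_aclo, mem_aclo]
  exact alg_map_iff φ S x

end alg

/-- **The theorem for several embeddings.** -/
theorem general_of_homs {k E K₀ : Type} [Field k] [CharZero k] [IsAlgClosed k] [Field E]
    [Field K₀] [Algebra k E] [Algebra k K₀] {Γ : Subgroup (E ≃ₐ[k] E)} [Finite Γ] {J : Type}
    (φ : J → K₀ →ₐ[k] E) (H : J → Subgroup Γ)
    (hfix : ∀ j, ∀ h ∈ H j, ∀ z, (h : E ≃ₐ[k] E) (φ j z) = φ j z) {r : ℕ}
    (hidx : ∀ j, (H j).index ≤ r) (halg : ∀ x : E, x ∈ aclo k (⋃ j, Set.range (φ j)))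
    {s N w n : ℕ} (hC : HasCirc k s N w K₀) (hn : Algebra.trdeg k E = n) (hn1 : 1 ≤ n)
    (hN : r * (n * ((s + 4) * tn (s - 1))) ≤ N) : GeneralType k (fixedField Γ) n := by
  classical
  obtain ⟨m, d, U, c, a, b, hms, hNd, hU, hc, hsum, hlin, hbas⟩ := hC
  set t : Fin w → K₀ := fun i => (c i (a i) • U i (a i) ^ d i) / (c i (b i) • U i (b i) ^ d i)
    with ht
  -- the conjugates of the ratios
  let T : Set E := ⋃ j, Set.range fun i => φ j (t i)
  have hK₀ : ∀ z : K₀, z ∈ aclo k (Set.range t) := fun z =>
    mem_aclo.2 (hbas.isAlgebraic_field.isAlgebraic z)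
  have hTall : ∀ x : E, x ∈ aclo k T := by
    intro x
    refine aclo_le ?_ (halg x)
    rintro _ hx
    rw [Set.mem_iUnion] at hx
    obtain ⟨j, z, rfl⟩ := hx
    have h1 := (map_mem_aclo_iff (φ j) (Set.range t) z).2 (hK₀ z)
    refine aclo_mono ?_ h1
    rintro _ ⟨_, ⟨i, rfl⟩, rfl⟩
    exact Set.mem_iUnion.2 ⟨j, i, rfl⟩
  have hTalg : Algebra.IsAlgebraic (adjoin k T) E := ⟨fun x => mem_aclo.1 (hTall x)⟩
  have hTalg' := Pool.Agent.W602.GT.alg_adjoin hTalg
  obtain ⟨B, hBT, hBb⟩ := exists_isTranscendenceBasis_subset (R := k) (A := E) T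
  have hcard := hBb.cardinalMk_eq_trdeg
  rw [hn] at hcard
  obtain ⟨ψ⟩ : Nonempty (Fin n ≃ B) := by
    rw [← Cardinal.eq, Cardinal.mk_fin]
    exact hcard.symm
  have hub : IsTranscendenceBasis k (fun l => (ψ l : E)) := hBb.comp_equiv ψ
  have hmem : ∀ l, ∃ (j : J) (i : Fin w), φ j (t i) = (ψ l : E) := by
    intro l
    obtain ⟨j, i, hji⟩ := Set.mem_iUnion.1 (hBT (ψ l).2)
    exact ⟨j, i, hji⟩
  choose j i hji using hmem
  have hinj : ∀ l, Function.Injective (φ l) := fun l => (φ l).injective
  choose γ hγ using fun l => exists_generic (Γ := Γ)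
    (fun q => φ (j l) (U (i l) q) / φ (j l) (U (i l) (b (i l))))
  let z : Fin n → E := fun l =>
    (∑ q, γ l q • φ (j l) (U (i l) q)) / φ (j l) (U (i l) (b (i l)))
  have hz : ∀ l, z l = ∑ q, γ l q • (φ (j l) (U (i l) q) / φ (j l) (U (i l) (b (i l)))) := by
    intro l
    change (∑ q, γ l q • φ (j l) (U (i l) q)) / φ (j l) (U (i l) (b (i l))) = _
    rw [Finset.sum_div]
    exact Finset.sum_congr rfl fun q _ => by rw [smul_div_assoc]
  have hzH : ∀ l, ∀ h ∈ H (j l), (h : E ≃ₐ[k] E) (z l) = z l := by
    intro l h hh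
    rw [hz, map_sum]
    refine Finset.sum_congr rfl fun q _ => ?_
    rw [map_smul, map_div₀, hfix _ h hh, hfix _ h hh]
  choose Y hYc hYm hY using fun l => exists_rep (z l) (H (j l)) (hzH l)
  let C : Fin n → CC Γ := fun l =>
    { m := m (i l), U := fun q => φ (j l) (U (i l) q), c := c (i l), d := d (i l), b := b (i l),
      γ := γ l, Y := Y l }
  have hCT : ∀ l q, (C l).T q = φ (j l) (c (i l) q • U (i l) q ^ d (i l)) := by
    intro l q
    change c (i l) q • (φ (j l) (U (i l) q)) ^ d (i l) = _
    rw [map_smul, map_pow]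
  have hbas' : IsTranscendenceBasis k fun l => (C l).T (a (i l)) / (C l).T (C l).b := by
    convert hub using 1
    funext l
    rw [hCT, hCT, ← map_div₀, ← hji l]
  have htr : ∀ l, Transcendental k ((C l).T (a (i l)) / (C l).T (b (i l))) := fun l =>
    hbas'.1.transcendental l
  have hTne : ∀ l q, (C l).T q ≠ 0 := by
    intro l q
    rw [hCT]
    simp only [ne_eq, map_eq_zero]
    exact smul_ne_zero (hc _ q) (pow_ne_zero _ (hU _ q))
  have hTsum : ∀ l, ∑ q, (C l).T q = 0 := by
    intro l
    have h1 : ∑ q, (C l).T q = φ (j l) (∑ q, c (i l) q • U (i l) q ^ d (i l)) := by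
      rw [map_sum]
      exact Finset.sum_congr rfl fun q _ => hCT l q
    rw [h1, hsum, map_zero]
  have hWle : Wt C (s + 4) ≤ n * ((s + 4) * tn (s - 1)) := by
    unfold Wt
    calc ∑ l, (s + 4) * tn (C l).m ≤ ∑ _l : Fin n, (s + 4) * tn (s - 1) := by
          refine Finset.sum_le_sum fun l _ => Nat.mul_le_mul_left _ (tn_mono ?_)
          have := hms (i l)
          change m (i l) ≤ s - 1
          omega
      _ = n * ((s + 4) * tn (s - 1)) := by simp
  have hS : SysF C (s + 4) r (fun l => H (j l)) :=
    { hc := fun l => hc (i l)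
      hU := fun l q => by
        change φ (j l) (U (i l) q) ≠ 0
        rw [Ne, map_eq_zero]
        exact hU _ q
      hsum := hTsum
      hlin := by
        intro l
        have h1 := (hlin (i l)).map' (φ (j l)).toLinearMap
          (LinearMap.ker_eq_bot.2 (hinj (j l)))
        have h2 : (fun q => (C l).T ((Fin.last (m (i l))).succAbove q)) =
            (φ (j l)).toLinearMap ∘ fun q =>
              c (i l) ((Fin.last (m (i l))).succAbove q) •
                U (i l) ((Fin.last (m (i l))).succAbove q) ^ d (i l) :=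
          funext fun q => hCT l _
        change LinearIndependent k (fun q => (C l).T ((Fin.last (m (i l))).succAbove q))
        rw [h2]
        exact h1
      hgen := by
        intro l g hg q
        change (g : E ≃ₐ[k] E) (z l) = z l at hg
        rw [hz] at hg
        exact hγ l g hg q
      hH := fun l q h hh => hfix (j l) h hh _
      hr := fun l => hidx (j l)
      hYc := fun l => (hYc l).trans (hidx (j l))
      hY := fun l g hg => hY l g hg
      hYm := fun l τ hτ => hYm l τ hτ
      hA := fun l => by
        have := hms (i l)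
        change m (i l) + 5 ≤ s + 4
        omega
      hd := fun l => ((Nat.mul_le_mul_left r hWle).trans hN).trans (hNd (i l))
      hW := by
        unfold Wt
        have h1 : 0 < (s + 4) * tn (C ⟨0, hn1⟩).m := by
          refine Nat.mul_pos (by omega) (tn_pos ?_)
          exact two_le (hTne _) (hTsum _) (htr ⟨0, hn1⟩)
        exact lt_of_lt_of_le h1
          (Finset.single_le_sum (f := fun l => (s + 4) * tn (C l).m) (fun l _ => Nat.zero_le _)
            (Finset.mem_univ _)) }
  exact general_of_sysF hn hS (fun l => a (i l)) hbas'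

end Pool.Agent.N111.FT
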