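import Pool.Agent.TH466.QG.Loc
import Pool.Agent.TH466.QG.Gal

/-!
The local estimate for the pluricanonical forms of a system of circuits.
-/

set_option autoImplicit false
set_option linter.overlappingInstances false
set_option linter.unusedSectionVars false

open FF IntermediateField Pool.Agent.W603.LV

namespace Pool.Agent.N111.FT

open Pool.Agent.TH466.QG
open Pool.Agent.W619.PQ (Inert)
open Pool.Agent.W602.GT (IsPluri DerReg DerLog eta tn con con_apply con_log con_t lmat form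
  form_pluri exists_lam const_of_der wr_ne ge_div)

variable {k M : Type} [Field k] [Field M] [Algebra k M] {Γ : Subgroup (M ≃ₐ[k] M)} {n : ℕ}

/-- a system of circuits with large exponents -/
structure SysF (C : Fin n → CC Γ) (A r : ℕ) (H : Fin n → Subgroup Γ) : Prop where
  hc : ∀ i j, (C i).c j ≠ 0
  hU : ∀ i j, (C i).U j ≠ 0
  hsum : ∀ i, ∑ j, (C i).T j = 0
  hlin : ∀ i, LinearIndependent k (fun l => (C i).T ((Fin.last (C i).m).succAbove l))
  hgen : ∀ i (g : Γ), (g : M ≃ₐ[k] M) ((C i).V / (C i).U (C i).b) = (C i).V / (C i).U (C i).b →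
    ∀ j, (g : M ≃ₐ[k] M) ((C i).U j / (C i).U (C i).b) = (C i).U j / (C i).U (C i).b
  hH : ∀ i j, ∀ h ∈ H i, (h : M ≃ₐ[k] M) ((C i).U j) = (C i).U j
  hr : ∀ i, (H i).index ≤ r
  hYc : ∀ i, (C i).Y.card + 1 ≤ r
  hY : ∀ i (g : Γ), (g : M ≃ₐ[k] M) ((C i).V / (C i).U (C i).b) ≠ (C i).V / (C i).U (C i).b →
    ∃ τ ∈ (C i).Y, (τ : M ≃ₐ[k] M) ((C i).V / (C i).U (C i).b) =
      (g : M ≃ₐ[k] M) ((C i).V / (C i).U (C i).b)
  hYm : ∀ i, ∀ τ ∈ (C i).Y, (τ : M ≃ₐ[k] M) ((C i).V / (C i).U (C i).b) ≠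
    (C i).V / (C i).U (C i).b
  hA : ∀ i, (C i).m + 5 ≤ A
  hd : ∀ i, r * Wt C A ≤ (C i).d
  hW : 0 < Wt C A

variable {C : Fin n → CC Γ} {A r : ℕ} {H : Fin n → Subgroup Γ}

theorem SysF.hex (hS : SysF C A r H) (i : Fin n) :
    2 * (2 * Wt C A) * (C i).Y.card + 1 ≤ (C i).d * (A - ((C i).m + 1)) := by
  have h1 : 4 ≤ A - ((C i).m + 1) := by
    have := hS.hA i
    omega
  have h2 := hS.hYc i
  have h3 := hS.hd i
  have h4 := hS.hW
  calc 2 * (2 * Wt C A) * (C i).Y.card + 1 ≤ 4 * (((C i).Y.card + 1) * Wt C A) := by nlinarith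
    _ ≤ 4 * (r * Wt C A) := Nat.mul_le_mul_left _ (Nat.mul_le_mul_right _ h2)
    _ ≤ 4 * (C i).d := Nat.mul_le_mul_left _ h3
    _ ≤ (C i).d * (A - ((C i).m + 1)) := by
      rw [mul_comm]
      exact Nat.mul_le_mul_left _ h1

/-- the estimate for the product -/
theorem ge_GQ (hS : SysF C A r H) {w : Place k M} {E : Derivation k M M}
    (hη : ∀ i, Ge w (-((C i).d * mu (C i).U w)) (eta E (C i).T)) {G : Fin n → ℤ}
    (hΨ : ∀ i, Ge w (2 * (C i).Y.card * mu (C i).U w + (C i).BB w + G i) (C i).Psi)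
    (c : ∀ i, Fin ((C i).m + 1)) :
    Ge w (∑ i, ((2 * Wt C A : ℕ) * (C i).BB w +
      (∑ j, (w.ord ((C i).T j) - (C i).d * mu (C i).U w) + (2 * Wt C A : ℕ) * G i)))
      (GQ C A (2 * Wt C A) E c) := by
  unfold GQ
  refine Ge.prod (P := w) Finset.univ _ _ fun i _ => ?_
  refine (C i).ge_fa (hS.hc i) (hS.hU i) ?_ (hS.hex i) (hη i) (hΨ i) (c i)
  have := hS.hA i
  omega

theorem gap_nonneg (hS : SysF C A r H) (w : Place k M) (i : Fin n) (j : Fin ((C i).m + 1)) :
    0 ≤ w.ord ((C i).T j) - (C i).d * mu (C i).U w := by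
  rw [(C i).ord_T (hS.hc i), ← mul_sub]
  have h1 := mu_le (C i).U w j
  have h2 : (0 : ℤ) ≤ (C i).d := by positivity
  exact mul_nonneg h2 (by linarith)

section main

variable [CharZero k] [IsAlgClosed k] [Finite Γ]

/-- **The local estimate.** -/
theorem local_est (hn : Algebra.trdeg k M = n) (hS : SysF C A r H)
    {a : ∀ i, Fin ((C i).m + 1)} {t : Fin n → M} {lam : Fin n → k}
    (ht : ∀ i, t i = (C i).T (a i) / (C i).T (C i).b)
    {ω : (∀ i, Fin ((C i).m + 1)) → (Fin n → Derivation k M M) → M}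
    (hω : ∀ c, IsPluri (Wt C A) (ω c))
    (hωv : ∀ c D', ω c D' = GQ C A (2 * Wt C A) (con t lam D') c)
    {v : Place k (fixedField Γ)} {w : Place k M} {e : ℕ} {I : Subgroup Γ} (hwv : Over w v e)
    (hcard : Nat.card I = e) (hI : ∀ g ∈ I, Inert w (g : M ≃ₐ[k] M))
    {D : Fin n → Derivation k (fixedField Γ) (fixedField Γ)} {D' : Fin n → Derivation k M M}
    (hDD : ∀ i, Ext (D i) (D' i)) (hD : ∀ i, DerReg v (D i)) (c : ∀ i, Fin ((C i).m + 1)) :
    Ge w (∑ i, (2 * Wt C A : ℕ) * (C i).BB w) (ω c D') := by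
  classical
  have hT : ∀ i j, (C i).T j ≠ 0 := fun i => (C i).T_ne (hS.hc i) (hS.hU i)
  have hΨ0 : ∀ i, Ge w (2 * (C i).Y.card * mu (C i).U w + (C i).BB w + 0) (C i).Psi := by
    intro i
    have := (C i).ge_Psi (w := w) (G := fun _ => 0) fun τ _ => by
      rw [add_zero]
      exact (C i).ge_factor w τ
    simpa using this
  -- the logarithmic estimate, with a gain, is enough
  have hmain : ∀ G : Fin n → ℤ,
      (∀ i, Ge w (2 * (C i).Y.card * mu (C i).U w + (C i).BB w + G i) (C i).Psi) →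
      ((Wt C A : ℤ) * e ≤ ∑ i, (∑ j, (w.ord ((C i).T j) - (C i).d * mu (C i).U w) +
        (2 * Wt C A : ℕ) * G i)) → Ge w (∑ i, (2 * Wt C A : ℕ) * (C i).BB w) (ω c D') := by
    intro G hG hgain
    have h1 := pivot hwv (hω c) (b := ∑ i, ((2 * Wt C A : ℕ) * (C i).BB w +
      (∑ j, (w.ord ((C i).T j) - (C i).d * mu (C i).U w) + (2 * Wt C A : ℕ) * G i)))
      (fun D1 D1' hE hlog => by
        rw [hωv]
        refine ge_GQ hS (fun i => ?_) hG c
        refine (C i).eta_of_log (hS.hc i) (hS.hU i) (hS.hsum i) fun x => ?_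
        exact con_log t lam D1' (fun l => log_ext hwv (hE l) (hlog l)) x) hDD hD
    refine h1.mono ?_
    rw [Finset.sum_add_distrib]
    linarith
  by_cases hord : ∀ i j, w.ord ((C i).U j) = mu (C i).U w
  · by_cases hfix : ∀ i, ∀ g ∈ I, ∀ j, (g : M ≃ₐ[k] M) ((C i).U j / (C i).U (C i).b) =
        (C i).U j / (C i).U (C i).b
    · -- no loss
      have hTq : ∀ i j, (∀ g ∈ I, (g : M ≃ₐ[k] M) ((C i).T j / (C i).T (C i).b) =
          (C i).T j / (C i).T (C i).b) ∧ w.ord ((C i).T j / (C i).T (C i).b) = 0 := by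
        intro i j
        refine ⟨fun g hg => ?_, ?_⟩
        · have e1 : (C i).T j / (C i).T (C i).b =
              algebraMap k M ((C i).c j / (C i).c (C i).b) *
                ((C i).U j / (C i).U (C i).b) ^ (C i).d := by
            unfold CC.T
            rw [Algebra.smul_def, Algebra.smul_def, map_div₀, div_pow]
            have h1 : algebraMap k M ((C i).c (C i).b) ≠ 0 := by
              rw [Ne, map_eq_zero]; exact hS.hc _ _
            have h2 := pow_ne_zero (C i).d (hS.hU i (C i).b)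
            field_simp
          rw [e1, map_mul, AlgEquiv.commutes, map_pow, hfix i g hg j]
        · rw [w.ord_div (hT i j) (hT i _), (C i).ord_T (hS.hc i), (C i).ord_T (hS.hc i),
            hord, hord, sub_self]
      have ht1 : ∀ l, ∀ g ∈ I, (g : M ≃ₐ[k] M) (t l) = t l := by
        intro l g hg
        rw [ht l]
        exact (hTq l (a l)).1 g hg
      have ht0 : ∀ l, t l ≠ 0 := fun l => by
        rw [ht l]
        exact div_ne_zero (hT _ _) (hT _ _)
      have ht2 : ∀ l, w.ord (t l) = 0 := fun l => by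
        rw [ht l]
        exact (hTq l (a l)).2
      have hη : ∀ i, Ge w (-((C i).d * mu (C i).U w)) (eta (con t lam D') (C i).T) := by
        intro i
        refine (C i).eta_of_fixed (hS.hc i) (hS.hU i) (hS.hsum i)
          {x | (∀ g ∈ I, (g : M ≃ₐ[k] M) x = x) ∧ Ge w 0 x} (fun x hx => hx.2)
          (fun x hx => ?_) (fun j => ?_) (hord i)
        · exact con_fixed hn hwv hcard hI hDD hD t lam ht1 ht0 ht2 hx.1 hx.2
        · exact ⟨(hTq i j).1, Or.inr (hTq i j).2.ge⟩
      have h1 := ge_GQ hS hη hΨ0 c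
      rw [hωv]
      refine h1.mono ?_
      rw [Finset.sum_add_distrib]
      have h2 : 0 ≤ ∑ i, (∑ j, (w.ord ((C i).T j) - (C i).d * mu (C i).U w) +
          ((2 * Wt C A : ℕ) : ℤ) * 0) := by
        refine Finset.sum_nonneg fun i _ => ?_
        rw [mul_zero, add_zero]
        exact Finset.sum_nonneg fun j _ => gap_nonneg hS w i j
      linarith
    · -- some ratio is moved
      push Not at hfix
      obtain ⟨i0, g0, hg0, j0, hj0⟩ := hfix
      let z : Fin n → M := fun i => (C i).V / (C i).U (C i).b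
      let J : Fin n → Subgroup Γ := fun i =>
        { carrier := {g | g ∈ I ∧ (g : M ≃ₐ[k] M) (z i) = z i}
          mul_mem' := by
            rintro x y ⟨hx, hx'⟩ ⟨hy, hy'⟩
            refine ⟨I.mul_mem hx hy, ?_⟩
            change (x : M ≃ₐ[k] M) ((y : M ≃ₐ[k] M) (z i)) = z i
            rw [hy', hx']
          one_mem' := ⟨I.one_mem, rfl⟩
          inv_mem' := by
            rintro x ⟨hx, hx'⟩
            refine ⟨I.inv_mem hx, ?_⟩
            conv_lhs => rw [← hx']
            change ((x⁻¹ * x : Γ) : M ≃ₐ[k] M) (z i) = z i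
            rw [inv_mul_cancel]
            rfl }
      have hJ : ∀ i g, g ∈ J i ↔ g ∈ I ∧ (g : M ≃ₐ[k] M) (z i) = z i := fun i g => Iff.rfl
      refine hmain (fun i => ((∑ τ ∈ (C i).Y, gn I (J i) (z i) τ : ℕ) : ℤ)) (fun i => ?_) ?_
      · have h1 := (C i).ge_Psi (w := w) (G := fun τ => ((gn I (J i) (z i) τ : ℕ) : ℤ))
          fun τ _ => (C i).ge_factor_gain (J := J i) hI (fun g hg => ((hJ i g).1 hg).1)
            (hS.hU i) (hord i _) (fun j hj => ((hJ i j).1 hj).2) τ
        push_cast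
        exact h1
      · have hmove : ∃ g ∈ I, (g : M ≃ₐ[k] M) (z i0) ≠ z i0 := by
          refine ⟨g0, hg0, fun h => hj0 ?_⟩
          exact hS.hgen i0 g0 h j0
        have h1 := count_two (hJ i0) (hS.hY i0) hmove
        rw [hcard] at h1
        have h2 : (e : ℤ) ≤ 2 * ((∑ τ ∈ (C i0).Y, gn I (J i0) (z i0) τ : ℕ) : ℤ) := by
          exact_mod_cast h1
        have h3 : ((2 * Wt C A : ℕ) : ℤ) * ((∑ τ ∈ (C i0).Y, gn I (J i0) (z i0) τ : ℕ) : ℤ) ≤
            ∑ i, (∑ j, (w.ord ((C i).T j) - (C i).d * mu (C i).U w) +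
              ((2 * Wt C A : ℕ) : ℤ) * ((∑ τ ∈ (C i).Y, gn I (J i) (z i) τ : ℕ) : ℤ)) := by
          refine le_trans ?_ (Finset.single_le_sum (f := fun i =>
            (∑ j, (w.ord ((C i).T j) - (C i).d * mu (C i).U w) +
              ((2 * Wt C A : ℕ) : ℤ) * ((∑ τ ∈ (C i).Y, gn I (J i) (z i) τ : ℕ) : ℤ)))
            (fun i _ => ?_) (Finset.mem_univ i0))
          · have := Finset.sum_nonneg fun j (_ : j ∈ Finset.univ) => gap_nonneg hS w i0 j
            linarith
          · exact add_nonneg (Finset.sum_nonneg fun j _ => gap_nonneg hS w i j) (by positivity)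
        refine le_trans ?_ h3
        have h4 : (0 : ℤ) ≤ Wt C A := by positivity
        have h5 := mul_le_mul_of_nonneg_left h2 h4
        push_cast
        push_cast at h5
        linarith
  · -- the orders in some circuit are not equal
    push Not at hord
    obtain ⟨i0, j0, hj0⟩ := hord
    refine hmain (fun _ => 0) hΨ0 ?_
    obtain ⟨j1, hj1⟩ := exists_mu (C i0).U w
    let f := Nat.card (I ⊓ H i0 : Subgroup Γ)
    have hf : e ≤ r * f := by
      rw [← hcard]
      exact card_le_index I (H i0) (hS.hr i0)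
    have hdvd : ∀ j, (f : ℤ) ∣ w.ord ((C i0).U j) := fun j =>
      dvd_of_fixed (J := I ⊓ H i0) (fun g hg => hI g (Subgroup.mem_inf.1 hg).1) (hS.hU i0 j)
        fun g hg => hS.hH i0 j g (Subgroup.mem_inf.1 hg).2
    have hlt : (f : ℤ) ≤ w.ord ((C i0).U j0) - mu (C i0).U w := by
      apply Int.le_of_dvd
      · have := mu_le (C i0).U w j0
        omega
      · rw [← hj1]
        exact dvd_sub (hdvd j0) (hdvd j1)
    have h1 : (Wt C A : ℤ) * e ≤ w.ord ((C i0).T j0) - (C i0).d * mu (C i0).U w := by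
      rw [(C i0).ord_T (hS.hc i0), ← mul_sub]
      have h2 : ((r * Wt C A : ℕ) : ℤ) ≤ (C i0).d := by exact_mod_cast hS.hd i0
      have h3 : (0 : ℤ) ≤ f := by positivity
      have h4 : (0 : ℤ) ≤ (C i0).d := by positivity
      have h5 : (0 : ℤ) ≤ Wt C A := by positivity
      calc (Wt C A : ℤ) * e ≤ Wt C A * ((r * f : ℕ) : ℤ) :=
            mul_le_mul_of_nonneg_left (by exact_mod_cast hf) h5
        _ = ((r * Wt C A : ℕ) : ℤ) * f := by push_cast; ring
        _ ≤ (C i0).d * f := mul_le_mul_of_nonneg_right h2 h3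
        _ ≤ (C i0).d * (w.ord ((C i0).U j0) - mu (C i0).U w) :=
            mul_le_mul_of_nonneg_left hlt h4
    refine h1.trans ?_
    simp only [mul_zero, add_zero]
    refine le_trans ?_ (Finset.single_le_sum
      (f := fun i => ∑ j, (w.ord ((C i).T j) - (C i).d * mu (C i).U w))
      (fun i _ => Finset.sum_nonneg fun j _ => gap_nonneg hS w i j) (Finset.mem_univ i0))
    exact Finset.single_le_sum
      (f := fun j => w.ord ((C i0).T j) - (C i0).d * mu (C i0).U w)
      (fun j _ => gap_nonneg hS w i0 j) (Finset.mem_univ j0)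

end main

end Pool.Agent.N111.FT
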